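import Pool.Agent.Run7.h555.TL.Lg
import Pool.Agent.Run7.h741.MG.Fin21
import Pool.Agent.Run7.h89.P21.Fin
import Pool.Agent.Run7.h89.P21.M6
import Pool.Agent.Run7.h843.P21.Sign

/-!
The `L`-functions of the twists by `-n` of `X_0(21)` and their exact central values.
-/

set_option autoImplicit false

open Complex Filter Topology Set UpperHalfPlane MatrixGroups CongruenceSubgroup ZMod

namespace Run7.h555.P21

open Pool.Agent.W97.MT (affCount ap qq)
open Pool.Agent.Run7.h741.MG (E21 ff II form21)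
open Pool.Agent.Run7.h843.P21.MS (kappa II_conj II_im kappa_eq kappa_pos)
open Pool.Agent.Run7.h843.P21 (Cls0 Fp cc)
open Pool.Agent.N969.P15 (Qc)
open Run7.h89.P21 (CI WT ap_twist ap_good)

lemma II_add_one (r : ℚ) : II (r + 1) = II r := by
  unfold II
  congr 1
  refine MeasureTheory.setIntegral_congr_fun measurableSet_Ioi fun t ht => ?_
  have ht' : (0 : ℝ) < t := ht
  show ff (((r + 1 : ℚ) : ℂ) + t * Complex.I) = ff ((r : ℂ) + t * Complex.I)
  rw [← Pool.Agent.Run7.h741.MG.ff_add_one Pool.Agent.Run7.h741.MG.hcp Pool.Agent.Run7.h741.MF.hqe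
    (z := (r : ℂ) + t * Complex.I) (by simpa using ht')]
  congr 1
  push_cast
  ring

/-- **the `L`-function of the twist by `-n` and its central value** -/
theorem exists_Lex {n : ℕ} (hn : Squarefree n) (h4 : n % 4 = 3) (hco : n.Coprime 21) :
    ∃ F : ℂ → ℂ, Differentiable ℂ F ∧
      (∀ s : ℂ, 3 / 2 < s.re →
        HasProd (fun p : ℕ => if p.Prime then Run7.h555.TL.eul 21 n (ap (CI n)) s p else 1) (F s)) ∧
      F 1 * ((√n : ℝ) : ℂ) = ((kappa * ((∑ u ∈ Pool.Agent.N969.P15.un n, jacobiSym u n *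
          Fp u n : ℤ) : ℝ) : ℝ) : ℂ) :=
  Run7.h555.TL.exists_L Pool.Agent.Run7.h741.MG.facts_21 Pool.Agent.Run7.h741.MG.bd_21 II_add_one II_conj
    (fun _ _ h1 h2 h3 => II_im h1 h2 h3) hn h4 hco
    (a' := ap (CI n)) (fun _ hp => ap_twist (D := -(n : ℤ)) (by omega) hp)

/-- **the exact central values of the twists of `X_0(21)`** -/
theorem center_ex {L : PeriodPair} {Op Om : ℝ} (hOm : 0 < Om) (g2 : L.g₂ = 193 / 12)
    (g3 : L.g₃ = 575 / 216)
    (hL : ∀ w : ℂ, w ∈ L.lattice ↔ ∃ a b : ℤ, w = a * Op + b * Om * Complex.I)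
    {n : ℕ} (hn : Cls0 n) :
    ∃ F : ℂ → ℂ, Differentiable ℂ F ∧
      (∀ s : ℂ, 3 / 2 < s.re →
        HasProd (fun p : ℕ => if p.Prime then Run7.h555.TL.eul 21 n (ap (CI n)) s p else 1) (F s)) ∧
      ∃ y : ℤ, (Odd y ↔ Qc n) ∧
        18 * F 1 * ((√n : ℝ) : ℂ) = ((Om * (2 ^ n.primeFactors.card * y) ^ 2 : ℝ) : ℂ) := by
  have hco : n.Coprime 21 := by
    have h3 : Nat.Coprime n 3 := by
      rw [Nat.coprime_comm, Nat.Prime.coprime_iff_not_dvd Nat.prime_three]
      have := hn.2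
      omega
    have h7 : Nat.Coprime n 7 := by
      rw [Nat.coprime_comm, Nat.Prime.coprime_iff_not_dvd (by norm_num)]
      have := hn.2
      omega
    exact Nat.Coprime.mul_right h3 h7
  have h4 : n % 4 = 3 := by
    have := hn.2
    omega
  obtain ⟨F, hF, hprod, hval⟩ := exists_Lex hn.1 h4 hco
  obtain ⟨y, hy, hodd⟩ := Pool.Agent.Run7.h89.P21.t_PAR n hn
  have hd := Pool.Agent.Run7.h89.P21.t_DIAG n hn
  have hk : kappa = Om := by
    rcases kappa_eq g2 g3 hOm hL with h | h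
    · exact h
    · exfalso
      have := kappa_pos
      linarith
  refine ⟨F, hF, hprod, y, hodd, ?_⟩
  have h1 : (18 : ℝ) * ((∑ u ∈ Pool.Agent.N969.P15.un n, jacobiSym u n * Fp u n : ℤ) : ℝ) =
      (2 ^ n.primeFactors.card * y) ^ 2 := by
    have h2 : ((72 * ∑ u ∈ Pool.Agent.N969.P15.un n, jacobiSym u n * Fp u n : ℤ) : ℝ) =
        4 * (2 ^ n.primeFactors.card * y) ^ 2 := by
      rw [hd, hy]
      push_cast
      ring
    rw [Int.cast_mul] at h2
    norm_num at h2 ⊢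
    linarith
  have h3 : 18 * F 1 * ((√n : ℝ) : ℂ) = 18 * (F 1 * ((√n : ℝ) : ℂ)) := by ring
  rw [h3, hval, hk, ← h1]
  push_cast
  ring

end Run7.h555.P21
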